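import Pool.Agent.Helper6.PL.BGP

/-!
Row C: both graphs have as many edges as the composition (complete blocks).
-/

set_option autoImplicit false

namespace Pool.Agent.Helper6.PL

open Finset Pool.Agent.Helper33.DP

/-- the mixed state, second graph -/
theorem BGPT (hDS1 : ST_DS1) {w : ℕ} {G G₁ G₂ : Gr w} {μ Q : Fin w → Fin w → ℝ} {β : ℝ}
    (hG : comp G₁ G₂ ⊆ G) (hQ : DS G₁ Q) (hB : Bdd G μ β) :
    Bdd G₂ (fun x b => ∑ a, Q a x * μ a b) β := by
  have hmem : ∀ a x b, (x, b) ∈ G₂ → Q a x ≠ 0 → 0 < μ a b := by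
    intro a x b h1 h2
    refine hB.pos a b (hG (comp_mem.2 ⟨x, ?_, h1⟩))
    by_contra h3
    exact h2 (hQ.supp a x h3)
  have hc : ∀ x b, ∑ a, Q a x * μ a b = ∑ a, μ a b * Q a x := fun x b =>
    Finset.sum_congr rfl fun a _ => mul_comm _ _
  refine ⟨fun x b h => ?_, fun σ hσ => ?_⟩
  · show 0 < ∑ a, Q a x * μ a b
    rw [hc]
    exact (inv_jensen (fun a => Q a x) (fun a => μ a b) (fun a => hQ.nonneg a x) (hQ.col x)
      (fun a ha => hmem a x b h ha)).1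
  · have hD : DS G (fun a b => Q a (σ.symm b)) :=
      ⟨fun a b => hQ.nonneg _ _, fun a => by
        rw [Equiv.sum_comp σ.symm (fun x => Q a x)]
        exact hQ.row a, fun b => hQ.col _, fun a b h => hQ.supp _ _ (fun h2 => h (hG
          (comp_mem.2 ⟨σ.symm b, h2, by
            have := hσ (σ.symm b)
            rwa [Equiv.apply_symm_apply] at this⟩)))⟩
    refine le_trans ?_ (hDS1 w G μ _ β hB hD)
    rw [Finset.sum_comm]
    have e : ∀ b, ∑ a, Q a (σ.symm b) * (μ a b)⁻¹ =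
        (fun b => ∑ a, Q a (σ.symm b) * (μ a b)⁻¹) b := fun _ => rfl
    rw [← Equiv.sum_comp σ (fun b => ∑ a, Q a (σ.symm b) * (μ a b)⁻¹)]
    refine Finset.sum_le_sum (fun x _ => ?_)
    simp only [Equiv.symm_apply_apply]
    rw [hc]
    exact (inv_jensen (fun a => Q a x) (fun a => μ a (σ x)) (fun a => hQ.nonneg a x) (hQ.col x)
      (fun a ha => hmem a x (σ x) (hσ x) ha)).2

/-! ### counting -/

/-- neighbours of a row -/
def nR {w : ℕ} (G : Gr w) (a : Fin w) : Finset (Fin w) := univ.filter fun x => (a, x) ∈ G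

/-- neighbours of a column -/
def nC {w : ℕ} (G : Gr w) (b : Fin w) : Finset (Fin w) := univ.filter fun x => (x, b) ∈ G

theorem mem_nR {w : ℕ} {G : Gr w} {a x : Fin w} : x ∈ nR G a ↔ (a, x) ∈ G := by simp [nR]
theorem mem_nC {w : ℕ} {G : Gr w} {b x : Fin w} : x ∈ nC G b ↔ (x, b) ∈ G := by simp [nC]

theorem sum_nR {w : ℕ} (G : Gr w) : ∑ a, (nR G a).card = G.card := by
  rw [Finset.card_eq_sum_card_fiberwise (f := Prod.fst) (t := univ) (fun _ _ => mem_univ _)]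
  refine Finset.sum_congr rfl fun a _ => ?_
  refine Finset.card_bij (fun x _ => (a, x)) ?_ ?_ ?_
  · intro x hx
    simp only [mem_filter]
    exact ⟨mem_nR.1 hx, trivial⟩
  · intro x _ y _ h
    exact (Prod.mk.inj h).2
  · rintro ⟨a', x⟩ h
    simp only [mem_filter] at h
    obtain ⟨h1, rfl⟩ := h
    exact ⟨x, mem_nR.2 h1, rfl⟩

theorem sum_nC {w : ℕ} (G : Gr w) : ∑ b, (nC G b).card = G.card := by
  rw [Finset.card_eq_sum_card_fiberwise (f := Prod.snd) (t := univ) (fun _ _ => mem_univ _)]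
  refine Finset.sum_congr rfl fun a _ => ?_
  refine Finset.card_bij (fun x _ => (x, a)) ?_ ?_ ?_
  · intro x hx
    simp only [mem_filter]
    exact ⟨mem_nC.1 hx, trivial⟩
  · intro x _ y _ h
    exact (Prod.mk.inj h).1
  · rintro ⟨x, a'⟩ h
    simp only [mem_filter] at h
    obtain ⟨h1, rfl⟩ := h
    exact ⟨x, mem_nC.2 h1, rfl⟩

/-- the hypotheses of case C -/
structure CC {w : ℕ} (G G₁ G₂ : Gr w) : Prop where
  c1 : IsCore G₁
  c2 : IsCore G₂
  sub : comp G₁ G₂ ⊆ G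
  st1 : ∀ a x b, (a, b) ∈ G → (x, b) ∈ G₂ → (a, x) ∈ G₁
  st2 : ∀ a x b, (a, b) ∈ G → (a, x) ∈ G₁ → (x, b) ∈ G₂
  k1 : G₁.card = G.card
  k2 : G₂.card = G.card

namespace CC
variable {w : ℕ} {G G₁ G₂ : Gr w}

theorem mem (h : CC G G₁ G₂) {a x b : Fin w} (h1 : (a, x) ∈ G₁) (h2 : (x, b) ∈ G₂) :
    (a, b) ∈ G := h.sub (comp_mem.2 ⟨x, h1, h2⟩)

theorem blk (h : CC G G₁ G₂) {a b : Fin w} (hab : (a, b) ∈ G) : nR G₁ a = nC G₂ b := by
  ext x
  rw [mem_nR, mem_nC]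
  exact ⟨fun h1 => h.st2 a x b hab h1, fun h2 => h.st1 a x b hab h2⟩

theorem rcard (h : CC G G₁ G₂) (a : Fin w) : (nR G₁ a).card = (nR G a).card := by
  obtain ⟨τ, hτ⟩ := h.c2.ex
  have hle : ∀ a ∈ (univ : Finset (Fin w)), (nR G₁ a).card ≤ (nR G a).card := by
    intro a _
    refine Finset.card_le_card_of_injOn τ (fun x hx => ?_) (fun x _ y _ e => τ.injective e)
    have hx' := mem_nR.1 (Finset.mem_coe.1 hx)
    exact Finset.mem_coe.2 (mem_nR.2 (h.mem hx' (hτ x)))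
  have hs : ∑ a, (nR G₁ a).card = ∑ a, (nR G a).card := by rw [sum_nR, sum_nR, h.k1]
  exact (Finset.sum_eq_sum_iff_of_le hle).1 hs a (mem_univ a)

theorem ccard (h : CC G G₁ G₂) (b : Fin w) : (nC G₂ b).card = (nC G b).card := by
  obtain ⟨σ, hσ⟩ := h.c1.ex
  have hle : ∀ b ∈ (univ : Finset (Fin w)), (nC G₂ b).card ≤ (nC G b).card := by
    intro b _
    refine Finset.card_le_card_of_injOn σ.symm (fun x hx => ?_)
      (fun x _ y _ e => σ.symm.injective e)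
    have hx' := mem_nC.1 (Finset.mem_coe.1 hx)
    have h3 := hσ (σ.symm x)
    rw [Equiv.apply_symm_apply] at h3
    exact Finset.mem_coe.2 (mem_nC.2 (h.mem h3 hx'))
  have hs : ∑ b, (nC G₂ b).card = ∑ b, (nC G b).card := by rw [sum_nC, sum_nC, h.k2]
  exact (Finset.sum_eq_sum_iff_of_le hle).1 hs b (mem_univ b)

theorem rpos (h : CC G G₁ G₂) (a : Fin w) : 0 < (nR G₁ a).card := by
  obtain ⟨σ, hσ⟩ := h.c1.ex
  exact Finset.card_pos.2 ⟨σ a, mem_nR.2 (hσ a)⟩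

theorem cpos (h : CC G G₁ G₂) (b : Fin w) : 0 < (nC G₂ b).card := by
  obtain ⟨τ, hτ⟩ := h.c2.ex
  refine Finset.card_pos.2 ⟨τ.symm b, mem_nC.2 ?_⟩
  have := hτ (τ.symm b)
  rwa [Equiv.apply_symm_apply] at this

end CC

/-- the routing matrix of the second graph -/
noncomputable def PP {w : ℕ} (G₂ : Gr w) (x b : Fin w) : ℝ :=
  if (x, b) ∈ G₂ then ((nC G₂ b).card : ℝ)⁻¹ else 0

/-- the routing matrix of the first graph -/
noncomputable def QQ {w : ℕ} (G₁ : Gr w) (a x : Fin w) : ℝ :=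
  if (a, x) ∈ G₁ then ((nR G₁ a).card : ℝ)⁻¹ else 0

theorem sum_ite_card {w : ℕ} {p : Fin w → Prop} [DecidablePred p] {f : Fin w → ℝ} {c : ℝ}
    (hf : ∀ x, p x → f x = c) :
    ∑ x, (if p x then f x else 0) = ((univ.filter p).card : ℝ) * c := by
  rw [← Finset.sum_filter, Finset.sum_congr rfl (g := fun _ => c)
    (fun x hx => hf x (mem_filter.1 hx).2), Finset.sum_const, nsmul_eq_mul]

theorem CC.dsP {w : ℕ} {G G₁ G₂ : Gr w} (h : CC G G₁ G₂) : DS G₂ (PP G₂) where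
  nonneg x b := by
    unfold PP
    split_ifs
    · positivity
    · exact le_rfl
  row x := by
    obtain ⟨σ, hσ⟩ := h.c1.ex
    have ha := hσ (σ.symm x)
    rw [Equiv.apply_symm_apply] at ha
    set a := σ.symm x
    unfold PP
    rw [sum_ite_card (p := fun b => (x, b) ∈ G₂) (f := fun b => ((nC G₂ b).card : ℝ)⁻¹)
      (c := ((nR G₁ a).card : ℝ)⁻¹) (fun b hb => by rw [← h.blk (h.mem ha hb)])]
    have e : (univ.filter fun b => (x, b) ∈ G₂) = nR G a := by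
      ext b
      rw [mem_nR, mem_filter]
      exact ⟨fun h2 => h.mem ha h2.2, fun h2 => ⟨mem_univ _, h.st2 a x b h2 ha⟩⟩
    rw [e, ← h.rcard a, mul_inv_cancel₀]
    exact_mod_cast (h.rpos a).ne'
  col b := by
    unfold PP
    rw [sum_ite_card (p := fun x => (x, b) ∈ G₂) (f := fun _ => ((nC G₂ b).card : ℝ)⁻¹)
      (c := ((nC G₂ b).card : ℝ)⁻¹) (fun _ _ => rfl)]
    show ((nC G₂ b).card : ℝ) * _ = 1
    rw [mul_inv_cancel₀]
    exact_mod_cast (h.cpos b).ne'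
  supp x b hx := if_neg hx

theorem CC.dsQ {w : ℕ} {G G₁ G₂ : Gr w} (h : CC G G₁ G₂) : DS G₁ (QQ G₁) where
  nonneg x b := by
    unfold QQ
    split_ifs
    · positivity
    · exact le_rfl
  row a := by
    unfold QQ
    rw [sum_ite_card (p := fun x => (a, x) ∈ G₁) (f := fun _ => ((nR G₁ a).card : ℝ)⁻¹)
      (c := ((nR G₁ a).card : ℝ)⁻¹) (fun _ _ => rfl)]
    show ((nR G₁ a).card : ℝ) * _ = 1
    rw [mul_inv_cancel₀]
    exact_mod_cast (h.rpos a).ne'
  col x := by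
    obtain ⟨τ, hτ⟩ := h.c2.ex
    have hb := hτ x
    set b := τ x
    unfold QQ
    rw [sum_ite_card (p := fun a => (a, x) ∈ G₁) (f := fun a => ((nR G₁ a).card : ℝ)⁻¹)
      (c := ((nC G₂ b).card : ℝ)⁻¹) (fun a ha => by rw [h.blk (h.mem ha hb)])]
    have e : (univ.filter fun a => (a, x) ∈ G₁) = nC G b := by
      ext a
      rw [mem_nC, mem_filter]
      exact ⟨fun h2 => h.mem h2.2 hb, fun h2 => ⟨mem_univ _, h.st1 a x b h2 hb⟩⟩
    rw [e, ← h.ccard b, mul_inv_cancel₀]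
    exact_mod_cast (h.cpos b).ne'
  supp x b hx := if_neg hx

theorem pp_le {w n : ℕ} (hw : 1 ≤ w) (h0 : 0 < n) (h : n ≤ w) : pp w ≤ (n : ℝ)⁻¹ := by
  unfold pp
  rw [one_div]
  have hn : (0 : ℝ) < n := by exact_mod_cast h0
  refine inv_anti₀ hn ?_
  have h1 : (1 : ℝ) ≤ w := by exact_mod_cast hw
  have h2 : (n : ℝ) ≤ w := by exact_mod_cast h
  have h3 : (w : ℝ) ≤ (w : ℝ) ^ 4 := le_self_pow₀ h1 (by norm_num)
  have h4 : (0 : ℝ) ≤ (w : ℝ) ^ 4 := by positivity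
  linarith

theorem card_le_w {w : ℕ} (s : Finset (Fin w)) : s.card ≤ w := by
  have := Finset.card_le_univ s
  rwa [Fintype.card_fin] at this

theorem EE_pp {w : ℕ} (hw : 1 ≤ w) : 1 ≤ EE w * pp w ^ 2 := by
  have h1 : (0 : ℝ) < w := by exact_mod_cast hw
  unfold EE pp
  have : (64 * (w : ℝ) ^ 8) * (1 / (8 * (w : ℝ) ^ 4)) ^ 2 = 1 := by
    field_simp
    norm_num
  rw [this]

theorem C (hDS1 : ST_DS1) (hSTR : ST_STR) (hRND3 : ST_RND3) (hERS : ST_ERS)
    (hERSR : ST_ERSR) : ST_C := by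
  intro w G G₁ G₂ μ hw _ hG₁ hG₂ hsub hgood k1 k2
  obtain ⟨⟨-, s1⟩, ⟨-, s2⟩⟩ := hSTR w G G₁ G₂ hG₁ hG₂ hsub
  have h : CC G G₁ G₂ := ⟨hG₁, hG₂, hsub, (s1 k1).2, (s2 k2).2, k1, k2⟩
  obtain ⟨hμ0, ρ, hρ0, hB, hE⟩ := hgood
  have hpp0 : 0 ≤ pp w := by unfold pp; positivity
  have hPQ : ∀ a x b, (μ a b : ℝ) * PP G₂ x b = QQ G₁ a x * μ a b := by
    intro a x b
    by_cases hab : (a, b) ∈ G
    · unfold PP QQ
      by_cases hx : (x, b) ∈ G₂
      · rw [if_pos hx, if_pos (h.st1 a x b hab hx), h.blk hab, mul_comm]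
      · rw [if_neg hx, if_neg (fun h2 => hx (h.st2 a x b hab h2)), mul_zero, zero_mul]
    · rw [hμ0 a b hab, Nat.cast_zero, zero_mul, mul_zero]
  obtain ⟨z, hz, hz1, hz0⟩ := hRND3 w G₁ G₂ μ (fun a x b => (μ a b : ℝ) * PP G₂ x b)
    (fun a x b => mul_nonneg (Nat.cast_nonneg _) (h.dsP.nonneg x b)) (fun a x b hn => by
      by_cases hx : (x, b) ∈ G₂
      · rw [hμ0 a b (fun hab => hn ⟨h.st1 a x b hab hx, hx⟩), Nat.cast_zero, zero_mul]
      · rw [h.dsP.supp x b hx, mul_zero]) (fun a b _ => by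
      rw [← Finset.mul_sum, h.dsP.col b, mul_one])
  have hzn : ∀ a x b, ¬ ((a, x) ∈ G₁ ∧ (x, b) ∈ G₂) → z a x b = 0 := fun a x b hn => by
    by_contra hc
    exact hn (hz.supp a x b hc)
  refine ⟨z, hz, ⟨fun a x hax => ?_, ?_⟩, ⟨fun x b hxb => ?_, ?_⟩⟩
  · exact Finset.sum_eq_zero fun b _ => hzn a x b fun hc => hax hc.1
  · refine ⟨fun a x => ∑ b, ρ a b * PP G₂ x b, fun a x hax => ?_, ?_, ?_⟩
    · refine Finset.sum_eq_zero fun b _ => ?_
      by_cases hx : (x, b) ∈ G₂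
      · rw [hρ0 a b (fun hab => hax (h.st1 a x b hab hx)), zero_mul]
      · rw [h.dsP.supp x b hx, mul_zero]
    · rw [k1]
      exact BGP hDS1 w G G₁ G₂ ρ (PP G₂) _ hsub hρ0 h.dsP hB
    · have := hERS w G₂ (PP G₂) (fun a b => (μ a b : ℝ) - ρ a b)
        (fun a x b => (z a x b : ℝ) - μ a b * PP G₂ x b) (pp w) (EE w) hpp0 (EE_pp hw) h.dsP
        (fun x b hx => by
          unfold PP
          rw [if_pos hx]
          exact pp_le hw (h.cpos b) (card_le_w _)) hE hz1 (fun a x b hx => by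
          rw [hzn a x b (fun hc => hx hc.2), h.dsP.supp x b hx]
          simp) hz0
      have e : (fun a x => ((∑ b, z a x b : ℕ) : ℝ) - ∑ b, ρ a b * PP G₂ x b) =
          fun a x => ∑ b, ((μ a b : ℝ) - ρ a b) * PP G₂ x b +
            ∑ b, ((z a x b : ℝ) - μ a b * PP G₂ x b) := by
        funext a x
        rw [Nat.cast_sum, ← Finset.sum_sub_distrib, ← Finset.sum_add_distrib]
        exact Finset.sum_congr rfl fun b _ => by ring
      rw [e]
      exact this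
  · exact Finset.sum_eq_zero fun a _ => hzn a x b fun hc => hxb hc.2
  · refine ⟨fun x b => ∑ a, QQ G₁ a x * ρ a b, fun x b hxb => ?_, ?_, ?_⟩
    · refine Finset.sum_eq_zero fun a _ => ?_
      by_cases hx : (a, x) ∈ G₁
      · rw [hρ0 a b (fun hab => hxb (h.st2 a x b hab hx)), mul_zero]
      · rw [h.dsQ.supp a x hx, zero_mul]
    · rw [k2]
      exact BGPT hDS1 hsub h.dsQ hB
    · have := hERSR w G₁ (QQ G₁) (fun a b => (μ a b : ℝ) - ρ a b)
        (fun a x b => (z a x b : ℝ) - μ a b * PP G₂ x b) (pp w) (EE w) hpp0 (EE_pp hw) h.dsQ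
        (fun a x hx => by
          unfold QQ
          rw [if_pos hx]
          exact pp_le hw (h.rpos a) (card_le_w _)) hE hz1 (fun a x b hx => by
          rw [hzn a x b (fun hc => hx hc.1), hPQ, h.dsQ.supp a x hx]
          simp) hz0
      have e : (fun x b => ((∑ a, z a x b : ℕ) : ℝ) - ∑ a, QQ G₁ a x * ρ a b) =
          fun x b => ∑ a, QQ G₁ a x * ((μ a b : ℝ) - ρ a b) +
            ∑ a, ((z a x b : ℝ) - μ a b * PP G₂ x b) := by
        funext x b
        rw [Nat.cast_sum, ← Finset.sum_sub_distrib, ← Finset.sum_add_distrib]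
        refine Finset.sum_congr rfl fun a _ => ?_
        rw [hPQ a x b]
        ring
      rw [e]
      exact this

end Pool.Agent.Helper6.PL
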