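import Pool.Agent.Helper33.DP.Sheet

/-!
Row BGP: the mixed state has the same potential (Jensen).
-/

set_option autoImplicit false

namespace Pool.Agent.Helper6.PL

open Finset Pool.Agent.Helper33.DP

/-- Jensen for the inverse: weights `p`, masses `m > 0` on the support of the weights -/
theorem inv_jensen {ι : Type} [Fintype ι] (p m : ι → ℝ) (hp : ∀ i, 0 ≤ p i) (h1 : ∑ i, p i = 1)
    (hm : ∀ i, p i ≠ 0 → 0 < m i) :
    0 < ∑ i, m i * p i ∧ (∑ i, m i * p i)⁻¹ ≤ ∑ i, p i * (m i)⁻¹ := by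
  have hpos : ∀ i, 0 ≤ m i * p i := fun i => by
    rcases eq_or_ne (p i) 0 with h | h
    · rw [h, mul_zero]
    · exact mul_nonneg (hm i h).le (hp i)
  have hs : 0 < ∑ i, m i * p i := by
    obtain ⟨i, -, hi⟩ : ∃ i ∈ (univ : Finset ι), p i ≠ 0 := by
      by_contra hc
      push Not at hc
      rw [Finset.sum_eq_zero hc] at h1
      exact zero_ne_one h1
    exact Finset.sum_pos' (fun i _ => hpos i)
      ⟨i, mem_univ i, mul_pos (hm i hi) (lt_of_le_of_ne (hp i) (Ne.symm hi))⟩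
  refine ⟨hs, ?_⟩
  set S := ∑ i, m i * p i with hS
  have key : ∀ i, p i * (2 * S⁻¹ - m i * (S⁻¹ * S⁻¹)) ≤ p i * (m i)⁻¹ := by
    intro i
    rcases eq_or_ne (p i) 0 with h | h
    · rw [h, zero_mul, zero_mul]
    · refine mul_le_mul_of_nonneg_left ?_ (hp i)
      have hmi := hm i h
      have h2 : 0 ≤ m i * ((m i)⁻¹ - S⁻¹) ^ 2 := mul_nonneg hmi.le (sq_nonneg _)
      have h3 : m i * ((m i)⁻¹ - S⁻¹) ^ 2 = (m i)⁻¹ - 2 * S⁻¹ + m i * (S⁻¹ * S⁻¹) := by
        field_simp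
        ring
      linarith
  have h4 := Finset.sum_le_sum (fun i (_ : i ∈ (univ : Finset ι)) => key i)
  have h5 : ∑ i, p i * (2 * S⁻¹ - m i * (S⁻¹ * S⁻¹)) = S⁻¹ := by
    have e : ∀ i, p i * (2 * S⁻¹ - m i * (S⁻¹ * S⁻¹)) =
        p i * (2 * S⁻¹) - (m i * p i) * (S⁻¹ * S⁻¹) := fun i => by ring
    rw [Finset.sum_congr rfl (fun i _ => e i), Finset.sum_sub_distrib, ← Finset.sum_mul,
      ← Finset.sum_mul, h1, ← hS]
    field_simp
    ring
  rw [h5] at h4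
  exact h4

theorem comp_mem {w : ℕ} {G₁ G₂ : Gr w} {a b : Fin w} :
    (a, b) ∈ comp G₁ G₂ ↔ ∃ x, (a, x) ∈ G₁ ∧ (x, b) ∈ G₂ := by
  classical
  unfold comp
  simp

/-- rows of a doubly stochastic matrix moved by a matching -/
theorem ds_move {w : ℕ} {G G₁ G₂ : Gr w} {P : Fin w → Fin w → ℝ} (hG : comp G₁ G₂ ⊆ G)
    (hP : DS G₂ P) (σ : Equiv.Perm (Fin w)) (hσ : PM G₁ σ) : DS G (fun a b => P (σ a) b) where
  nonneg a b := hP.nonneg _ _
  row a := hP.row _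
  col b := by
    rw [Equiv.sum_comp σ (fun x => P x b)]
    exact hP.col b
  supp a b h := hP.supp _ _ (fun h2 => h (hG (comp_mem.2 ⟨σ a, hσ a, h2⟩)))

theorem BGP (hDS1 : ST_DS1) : ST_BGP := by
  intro w G G₁ G₂ μ P β hG hμ hP hB
  have hmem : ∀ a x b, (a, x) ∈ G₁ → P x b ≠ 0 → 0 < μ a b := by
    intro a x b h1 h2
    refine hB.pos a b (hG (comp_mem.2 ⟨x, h1, ?_⟩))
    by_contra h3
    exact h2 (hP.supp x b h3)
  refine ⟨fun a x h => ?_, fun σ hσ => ?_⟩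
  · exact (inv_jensen (fun b => P x b) (fun b => μ a b) (fun b => hP.nonneg x b) (hP.row x)
      (fun b hb => hmem a x b h hb)).1
  · refine le_trans ?_ (hDS1 w G μ (fun a b => P (σ a) b) β hB (ds_move hG hP σ hσ))
    refine Finset.sum_le_sum (fun a _ => ?_)
    exact (inv_jensen (fun b => P (σ a) b) (fun b => μ a b) (fun b => hP.nonneg _ b)
      (hP.row _) (fun b hb => hmem a (σ a) b (hσ a) hb)).2

end Pool.Agent.Helper6.PL
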