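import Pool.Agent.Helper6.PL.C
import Pool.Agent.Helper33.DP3.Sheet

/-!
Row C3: case C of version 3 (complete blocks), with rounding errors in the class `BB`.
-/

set_option autoImplicit false

namespace Pool.Agent.Helper6.PL

open Finset Pool.Agent.Helper33.DP Pool.Agent.Helper33.DP3

theorem BB_zero {w : ℕ} : BB (fun _ : Fin w => (0 : ℝ)) := by
  refine ⟨by simp, fun S => ?_⟩
  rw [Finset.sum_const_zero]
  have : (S.card : ℝ) ≤ w := by exact_mod_cast card_le_w S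
  exact mul_nonneg (Nat.cast_nonneg _) (by linarith)

/-- the sum of the errors of a complete block -/
theorem bb_blk (hCR : ST_CR) {w n : ℕ} {X B : Finset (Fin w)} (hX : X.card = n)
    (hB : B.card = n) (hn : 1 ≤ n) (ν : Fin w → Fin w → ℝ) (y : Fin w → Fin w → ℕ)
    (m : Fin w → ℕ) (h0 : ∀ b x, ¬ (b ∈ B ∧ x ∈ X) → ν b x = 0)
    (h1 : ∀ b ∈ B, ∀ x ∈ X, ν b x = (y b x : ℝ) - m b / n)
    (h2 : ∀ b ∈ B, ∑ x ∈ X, y b x = m b) (h3 : ∀ b x, |ν b x| < 1) :
    BB (fun x => ∑ b, ν b x) := by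
  have hn0 : (0 : ℝ) < n := by exact_mod_cast hn
  constructor
  · show ∑ x, ∑ b, ν b x = 0
    rw [Finset.sum_comm]
    refine Finset.sum_eq_zero fun b _ => ?_
    by_cases hb : b ∈ B
    · rw [← Finset.sum_subset (Finset.subset_univ X) (fun x _ hx => h0 b x fun hc => hx hc.2),
        Finset.sum_congr rfl (h1 b hb), Finset.sum_sub_distrib, Finset.sum_const, hX,
        ← Nat.cast_sum, h2 b hb, nsmul_eq_mul]
      field_simp
      ring
    · exact Finset.sum_eq_zero fun x _ => h0 b x fun hc => hb hc.1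
  · intro S
    show ∑ x ∈ S, ∑ b, ν b x ≤ _
    rw [Finset.sum_comm]
    have e1 : ∑ b, ∑ x ∈ S, ν b x = ∑ b ∈ B, ∑ x ∈ S ∩ X, ν b x := by
      rw [← Finset.sum_subset (Finset.subset_univ B) (fun b _ hb =>
        Finset.sum_eq_zero fun x _ => h0 b x fun hc => hb hc.1)]
      refine Finset.sum_congr rfl fun b _ => ?_
      exact (Finset.sum_subset Finset.inter_subset_left (fun x hx hx2 =>
        h0 b x fun hc => hx2 (Finset.mem_inter.2 ⟨hx, hc.2⟩))).symm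
    rw [e1]
    have hj : (S ∩ X).card ≤ n := hX ▸ Finset.card_le_card Finset.inter_subset_right
    have e2 : ∑ b ∈ B, ∑ x ∈ S ∩ X, ν b x ≤
        ∑ _b ∈ B, ((S ∩ X).card * (n - (S ∩ X).card : ℝ) / n) := by
      refine Finset.sum_le_sum fun b hb => ?_
      rw [Finset.sum_congr rfl fun x hx => h1 b hb x (Finset.mem_inter.1 hx).2]
      exact hCR w n (m b) X (S ∩ X) (y b) hX hn Finset.inter_subset_right (h2 b hb)
        fun x hx => by rw [← h1 b hb x hx]; exact h3 b x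
    refine e2.trans ?_
    rw [Finset.sum_const, hB, nsmul_eq_mul]
    have e3 : (n : ℝ) * ((S ∩ X).card * (n - (S ∩ X).card : ℝ) / n) =
        (S ∩ X).card * (n - (S ∩ X).card : ℝ) := by field_simp
    rw [e3]
    have hsplit : (S ∩ X).card + (S \ X).card = S.card := Finset.card_inter_add_card_sdiff S X
    have hw : (S \ X).card + n ≤ w := by
      rw [← hX, ← Finset.card_union_of_disjoint Finset.sdiff_disjoint]
      exact card_le_w _
    have a1 : ((S ∩ X).card : ℝ) + ((S \ X).card : ℝ) = S.card := by exact_mod_cast hsplit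
    have a2 : ((S \ X).card : ℝ) + n ≤ w := by exact_mod_cast hw
    have a3 : ((S ∩ X).card : ℝ) ≤ n := by exact_mod_cast hj
    have a4 : (0 : ℝ) ≤ (S ∩ X).card := Nat.cast_nonneg _
    have a5 : (0 : ℝ) ≤ (S \ X).card := Nat.cast_nonneg _
    rw [← a1]
    nlinarith [mul_nonneg a4 (sub_nonneg.2 a2), mul_nonneg a5 (sub_nonneg.2 a3),
      mul_nonneg a5 (sub_nonneg.2 a2)]

theorem C3 (hDS1 : ST_DS1) (hSTR : ST_STR) (hLR : ST_LR) (hCR : ST_CR) (hBB2 : ST_BB2) :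
    ST_C3 := by
  intro w G G₁ G₂ μ hw _ hG₁ hG₂ hsub hgood k1 k2
  obtain ⟨⟨-, s1⟩, ⟨-, s2⟩⟩ := hSTR w G G₁ G₂ hG₁ hG₂ hsub
  have h : CC G G₁ G₂ := ⟨hG₁, hG₂, hsub, (s1 k1).2, (s2 k2).2, k1, k2⟩
  obtain ⟨hμ0, ρ, dR, dC, h0, hsum, hB, hdR, hdC⟩ := hgood
  have hPQ : ∀ (f : Fin w → Fin w → ℝ), (∀ a b, (a, b) ∉ G → f a b = 0) → ∀ a x b,
      f a b * PP G₂ x b = QQ G₁ a x * f a b := by
    intro f hf a x b
    by_cases hab : (a, b) ∈ G
    · unfold PP QQ
      by_cases hx : (x, b) ∈ G₂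
      · rw [if_pos hx, if_pos (h.st1 a x b hab hx), h.blk hab, mul_comm]
      · rw [if_neg hx, if_neg (fun h2 => hx (h.st2 a x b hab h2)), mul_zero, zero_mul]
    · rw [hf a b hab, zero_mul, mul_zero]
  have hμ0' : ∀ a b, (a, b) ∉ G → (μ a b : ℝ) = 0 := fun a b hab => by
    rw [hμ0 a b hab, Nat.cast_zero]
  -- rounding
  have hex : ∀ a, ∃ y' : Fin w → Fin w → ℕ, (∀ b, ∑ x, y' b x = μ a b) ∧
      (∀ b x, |(y' b x : ℝ) - μ a b * PP G₂ x b| < 1) ∧
      (∀ b x, (μ a b : ℝ) * PP G₂ x b = 0 → y' b x = 0) := by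
    intro a
    obtain ⟨y', g1, g2, g3, -⟩ := hLR w (fun _ => 0) (fun b x => (μ a b : ℝ) * PP G₂ x b)
      (μ a) BB_zero (fun b x => mul_nonneg (Nat.cast_nonneg _) (h.dsP.nonneg x b))
      (fun b => by rw [← Finset.mul_sum, h.dsP.col b, mul_one])
    exact ⟨y', g1, g2, g3⟩
  choose y hy1 hy2 hy3 using hex
  have hyn : ∀ a x b, ¬ ((a, x) ∈ G₁ ∧ (x, b) ∈ G₂) → y a b x = 0 := by
    intro a x b hn
    refine hy3 a b x ?_
    by_cases hx : (x, b) ∈ G₂
    · rw [hμ0' a b (fun hab => hn ⟨h.st1 a x b hab hx, hx⟩), zero_mul]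
    · rw [h.dsP.supp x b hx, mul_zero]
  have hyG : ∀ a x b, (a, b) ∉ G → y a b x = 0 := fun a x b hab =>
    hyn a x b fun hc => hab (h.mem hc.1 hc.2)
  -- the errors
  have hν0 : ∀ a x b, ¬ ((a, b) ∈ G ∧ (a, x) ∈ G₁) →
      (y a b x : ℝ) - μ a b * PP G₂ x b = 0 := by
    intro a x b hn
    by_cases hab : (a, b) ∈ G
    · have hax : (a, x) ∉ G₁ := fun hc => hn ⟨hab, hc⟩
      rw [hyn a x b (fun hc => hax hc.1), hPQ _ hμ0', h.dsQ.supp a x hax]
      simp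
    · rw [hyG a x b hab, hμ0' a b hab]
      simp
  have hνv : ∀ a x b, (a, b) ∈ G → (a, x) ∈ G₁ →
      (y a b x : ℝ) - μ a b * PP G₂ x b = y a b x - μ a b / ((nR G₁ a).card : ℝ) := by
    intro a x b hab hax
    rw [hPQ _ hμ0']
    unfold QQ
    rw [if_pos hax, div_eq_inv_mul]
  have hys : ∀ a b, (a, b) ∈ G → ∑ x ∈ nR G₁ a, y a b x = μ a b := by
    intro a b _
    rw [Finset.sum_subset (Finset.subset_univ (nR G₁ a)) (fun x _ hx =>
      hyn a x b fun hc => hx (mem_nR.2 hc.1))]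
    exact hy1 a b
  have hRow : ∀ a, BB (fun x => ∑ b, ((y a b x : ℝ) - μ a b * PP G₂ x b)) := by
    intro a
    refine bb_blk hCR (X := nR G₁ a) (B := nR G a) rfl (h.rcard a).symm (h.rpos a)
      (fun b x => (y a b x : ℝ) - μ a b * PP G₂ x b) (y a) (μ a)
      (fun b x hn => hν0 a x b fun hc => hn ⟨mem_nR.2 hc.1, mem_nR.2 hc.2⟩)
      (fun b hb x hx => hνv a x b (mem_nR.1 hb) (mem_nR.1 hx))
      (fun b hb => hys a b (mem_nR.1 hb)) (fun b x => hy2 a b x)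
  have hCol : ∀ b, BB (fun x => ∑ a, ((y a b x : ℝ) - μ a b * PP G₂ x b)) := by
    intro b
    refine bb_blk hCR (X := nC G₂ b) (B := nC G b) rfl (h.ccard b).symm (h.cpos b)
      (fun a x => (y a b x : ℝ) - μ a b * PP G₂ x b) (fun a x => y a b x) (fun a => μ a b)
      (fun a x hn => hν0 a x b fun hc => hn ⟨mem_nC.2 hc.1, mem_nC.2 (h.st2 a x b hc.1 hc.2)⟩)
      (fun a ha x hx => ?_) (fun a ha => ?_) (fun a x => hy2 a b x)
    · have ha' := mem_nC.1 ha
      rw [← h.blk ha']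
      exact hνv a x b ha' (h.st1 a x b ha' (mem_nC.1 hx))
    · have ha' := mem_nC.1 ha
      rw [← h.blk ha']
      exact hys a b ha'
  -- the averages which vanish
  have hRz : ∀ a x, ∑ b, dR a b * PP G₂ x b = 0 := by
    intro a x
    rw [Finset.sum_congr rfl fun b _ => hPQ dR (fun a b hab => (h0 a b hab).2.1) a x b,
      ← Finset.mul_sum, (hdR a).1, mul_zero]
  have hCz : ∀ x b, ∑ a, QQ G₁ a x * dC a b = 0 := by
    intro x b
    rw [Finset.sum_congr rfl fun a _ =>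
      (hPQ dC (fun a b hab => (h0 a b hab).2.2) a x b).symm, ← Finset.sum_mul, (hdC b).1, zero_mul]
  refine ⟨fun a x b => y a b x, ⟨fun a x b hne => ?_, fun a b _ => hy1 a b⟩,
    ⟨fun a x hax => ?_, fun a x => ∑ b, ρ a b * PP G₂ x b,
      fun a x => ∑ b, ((y a b x : ℝ) - μ a b * PP G₂ x b), fun a x => ∑ b, dC a b * PP G₂ x b,
      fun a x hax => ⟨?_, ?_, ?_⟩, fun a x => ?_, ?_, hRow, fun x => ?_⟩,
    ⟨fun x b hxb => ?_, fun x b => ∑ a, QQ G₁ a x * ρ a b,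
      fun x b => ∑ a, QQ G₁ a x * dR a b,
      fun x b => ∑ a, ((y a b x : ℝ) - μ a b * PP G₂ x b),
      fun x b hxb => ⟨?_, ?_, ?_⟩, fun x b => ?_, ?_, fun x => ?_, hCol⟩⟩
  · by_contra hc
    exact hne (hyn a x b hc)
  · exact Finset.sum_eq_zero fun b _ => hyn a x b fun hc => hax hc.1
  · refine Finset.sum_eq_zero fun b _ => ?_
    rw [hPQ ρ (fun a b hab => (h0 a b hab).1), h.dsQ.supp a x hax, zero_mul]
  · exact Finset.sum_eq_zero fun b _ => hν0 a x b fun hc => hax hc.2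
  · refine Finset.sum_eq_zero fun b _ => ?_
    rw [hPQ dC (fun a b hab => (h0 a b hab).2.2), h.dsQ.supp a x hax, zero_mul]
  · have e : ∀ b, (μ a b : ℝ) * PP G₂ x b =
        ρ a b * PP G₂ x b + dR a b * PP G₂ x b + dC a b * PP G₂ x b := fun b => by
      rw [hsum a b]; ring
    have e2 : ∑ b, (μ a b : ℝ) * PP G₂ x b =
        ∑ b, ρ a b * PP G₂ x b + ∑ b, dC a b * PP G₂ x b := by
      rw [Finset.sum_congr rfl fun b _ => e b, Finset.sum_add_distrib, Finset.sum_add_distrib,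
        hRz, add_zero]
    show ((∑ b, y a b x : ℕ) : ℝ) = ∑ b, ρ a b * PP G₂ x b +
      ∑ b, ((y a b x : ℝ) - μ a b * PP G₂ x b) + ∑ b, dC a b * PP G₂ x b
    rw [Nat.cast_sum, Finset.sum_sub_distrib, e2]
    ring
  · rw [k1]
    exact BGP hDS1 w G G₁ G₂ ρ (PP G₂) _ hsub (fun a b hab => (h0 a b hab).1) h.dsP hB
  · have := hBB2 w (fun b => PP G₂ x b) dC (fun b => h.dsP.nonneg x b) (h.dsP.row x) hdC
    have e : (fun a => ∑ b, dC a b * PP G₂ x b) = fun a => ∑ b, PP G₂ x b * dC a b := by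
      funext a
      exact Finset.sum_congr rfl fun b _ => mul_comm _ _
    rw [e]
    exact this
  · exact Finset.sum_eq_zero fun a _ => hyn a x b fun hc => hxb hc.2
  · refine Finset.sum_eq_zero fun a _ => ?_
    rw [← hPQ ρ (fun a b hab => (h0 a b hab).1), h.dsP.supp x b hxb, mul_zero]
  · refine Finset.sum_eq_zero fun a _ => ?_
    rw [← hPQ dR (fun a b hab => (h0 a b hab).2.1), h.dsP.supp x b hxb, mul_zero]
  · exact Finset.sum_eq_zero fun a _ => hν0 a x b fun hc => hxb (h.st2 a x b hc.1 hc.2)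
  · have e : ∀ a, (μ a b : ℝ) * PP G₂ x b =
        QQ G₁ a x * ρ a b + QQ G₁ a x * dR a b + QQ G₁ a x * dC a b := fun a => by
      rw [hPQ _ hμ0', hsum a b]; ring
    have e2 : ∑ a, (μ a b : ℝ) * PP G₂ x b =
        ∑ a, QQ G₁ a x * ρ a b + ∑ a, QQ G₁ a x * dR a b := by
      rw [Finset.sum_congr rfl fun a _ => e a, Finset.sum_add_distrib, Finset.sum_add_distrib,
        hCz, add_zero]
    show ((∑ a, y a b x : ℕ) : ℝ) = ∑ a, QQ G₁ a x * ρ a b + ∑ a, QQ G₁ a x * dR a b +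
      ∑ a, ((y a b x : ℝ) - μ a b * PP G₂ x b)
    rw [Nat.cast_sum, Finset.sum_sub_distrib, e2]
    ring
  · rw [k2]
    exact BGPT hDS1 hsub h.dsQ hB
  · exact hBB2 w (fun a => QQ G₁ a x) (fun b a => dR a b) (fun a => h.dsQ.nonneg a x)
      (h.dsQ.col x) hdR

end Pool.Agent.Helper6.PL
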